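import Pool.Agent.MP_2790d1_an.Mg.Main

open Set Metric Filter Pool.Agent.MP_2790d1_an

namespace Pool.Agent.Results.MP_2790d1_an.NoApprox

/-- A normalised univalent map of the unit ball of `ℂ²` with non-Runge image which is not a
locally uniform limit of entire injective holomorphic maps. -/
theorem result : ∃ f : EuclideanSpace ℂ (Fin 2) → EuclideanSpace ℂ (Fin 2),
    DifferentiableOn ℂ f (ball 0 1) ∧ InjOn f (ball 0 1) ∧ f 0 = 0 ∧
    fderiv ℂ f 0 = ContinuousLinearMap.id ℂ (EuclideanSpace ℂ (Fin 2)) ∧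
    ¬ IsRunge (f '' ball 0 1) ∧
    ¬ ∃ Ψ : ℕ → EuclideanSpace ℂ (Fin 2) → EuclideanSpace ℂ (Fin 2),
      (∀ k, Differentiable ℂ (Ψ k) ∧ Function.Injective (Ψ k)) ∧
      ∀ K ⊆ ball (0 : EuclideanSpace ℂ (Fin 2)) 1, IsCompact K →
        TendstoUniformlyOn Ψ f atTop K :=
  counterexample

end Pool.Agent.Results.MP_2790d1_an.NoApprox
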